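import Pool.Agent.LSG.StmtsA

/-!
# Row HME of squad LSG: clopen sets of equal measure are homeomorphic
-/

set_option autoImplicit false

open MeasureTheory Set Topology

namespace Pool.Agent.LSG.H41

open Pool.Agent.LSG

/-- homeomorphic fibres -/
def sgCongr {ι : Type} {X Y : ι → Type} [∀ i, TopologicalSpace (X i)]
    [∀ i, TopologicalSpace (Y i)] (h : ∀ i, X i ≃ₜ Y i) : (Σ i, X i) ≃ₜ Σ i, Y i where
  toEquiv := Equiv.sigmaCongrRight fun i => (h i).toEquiv
  continuous_toFun := continuous_sigma fun i => continuous_sigmaMk.comp (h i).continuous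
  continuous_invFun := continuous_sigma fun i => continuous_sigmaMk.comp (h i).symm.continuous

/-- exchange of two sums -/
def sgSwap {ι κ : Type} (X : ι → κ → Type) [∀ i j, TopologicalSpace (X i j)] :
    (Σ i, Σ j, X i j) ≃ₜ Σ j, Σ i, X i j where
  toFun p := ⟨p.2.1, p.1, p.2.2⟩
  invFun p := ⟨p.2.1, p.1, p.2.2⟩
  left_inv _ := rfl
  right_inv _ := rfl
  continuous_toFun := continuous_sigma fun i => continuous_sigma fun j =>
    (continuous_sigmaMk (σ := fun j => Σ i, X i j) (i := j)).comp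
      (continuous_sigmaMk (σ := fun i => X i j) (i := i))
  continuous_invFun := continuous_sigma fun j => continuous_sigma fun i =>
    (continuous_sigmaMk (σ := fun i => Σ j, X i j) (i := i)).comp
      (continuous_sigmaMk (σ := fun j => X i j) (i := j))

/-- a nonempty clopen set has positive measure -/
theorem dm_pos (_hD : DenStmt) (hO : OutStmt) (hC : CylStmt) {G : AddSubgroup K} (hG : Big G)
    {k : ℕ} {A : Set (G × Fin k)} (hA : IsClopen A) (hne : A.Nonempty) : dm A ≠ 0 := by
  obtain ⟨⟨x, i⟩, hx⟩ := hne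
  have hopen : IsOpen {y : G | (y, i) ∈ A} := hA.isOpen.preimage (by fun_prop)
  obtain ⟨U, hU, hUA⟩ := isOpen_induced_iff.mp hopen
  have hxU : (x : K) ∈ U := by
    have : x ∈ Subtype.val ⁻¹' U := by
      rw [hUA]
      exact hx
    exact this
  obtain ⟨I, u, h1, h2⟩ := isOpen_pi_iff.mp hU (x : K) hxU
  -- a cylinder contained in `U`
  obtain ⟨n, hn⟩ : ∃ n, ∀ i ∈ I, i < n := ⟨I.sup id + 1, fun i hi =>
    Nat.lt_succ_of_le (Finset.le_sup (f := id) hi)⟩
  have hcyl : {y : K | ∀ i < n, y i = (x : K) i} ⊆ U := by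
    intro y hy
    apply h2
    intro i hi
    rw [hy i (hn i hi)]
    exact (h1 i hi).2
  have hmeas : MeasurableSet {y : K | ∀ i < n, y i = (x : K) i} := by
    have : {y : K | ∀ i < n, y i = (x : K) i} = ⋂ i ∈ Set.Iio n, {y : K | y i = (x : K) i} := by
      ext y
      simp
    rw [this]
    refine MeasurableSet.biInter (Set.finite_Iio n).countable fun i _ => ?_
    have hc : Measurable fun y : K => y i := measurable_pi_apply i
    exact hc (measurableSet_singleton ((x : K) i))
  have hsub : {y | y ∈ G ∧ y ∈ {y : K | ∀ i < n, y i = (x : K) i}} ⊆ sl A i := by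
    rintro y ⟨hyG, hy⟩
    refine ⟨hyG, ?_⟩
    have : (⟨y, hyG⟩ : G) ∈ Subtype.val ⁻¹' U := hcyl hy
    rw [hUA] at this
    exact this
  intro h0
  have h3 : mu (sl A i) = 0 := by
    unfold dm at h0
    exact (Finset.sum_eq_zero_iff.mp h0) i (Finset.mem_univ i)
  have h4 := measure_mono_null hsub h3
  rw [hO G hG _ hmeas, hC n (x : K)] at h4
  exact (ENNReal.inv_ne_zero.mpr (ENNReal.pow_ne_top ENNReal.ofNat_ne_top)) h4

theorem hme (hP : OpnStmt) (hV : OvlStmt) (hF : FsmStmt) (hD : DenStmt) (hO : OutStmt)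
    (hC : CylStmt) : HmeStmt := by
  intro G hG k A B hA hB hAB
  rcases A.eq_empty_or_nonempty with hA0 | hA0
  · have hB0 : B = ∅ := by
      by_contra hne
      refine dm_pos hD hO hC hG hB (Set.nonempty_iff_ne_empty.mpr hne) ?_
      rw [← hAB, hA0]
      unfold dm
      refine Finset.sum_eq_zero fun i _ => ?_
      have : sl (∅ : Set (G × Fin k)) i = ∅ := by
        ext x
        simp [sl]
      rw [this]
      exact measure_empty
    rw [hA0, hB0]
    exact ⟨Homeomorph.refl _⟩
  · have hB0 : B.Nonempty := by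
      by_contra hne
      rw [Set.not_nonempty_iff_eq_empty] at hne
      refine dm_pos hD hO hC hG hA hA0 ?_
      rw [hAB, hne]
      unfold dm
      refine Finset.sum_eq_zero fun i _ => ?_
      have : sl (∅ : Set (G × Fin k)) i = ∅ := by
        ext x
        simp [sl]
      rw [this]
      exact measure_empty
    obtain ⟨n, ⟨en⟩, hn⟩ := hP G hG k A hA hA0
    obtain ⟨m, ⟨em⟩, hm⟩ := hP G hG k B hB hB0
    have hfin : dm A ≠ ⊤ := by
      have h1 : mu (Set.univ : Set K) ≠ ⊤ := by
        have h2 := hC 0 0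
        have h3 : {x : K | ∀ i < 0, x i = (0 : K) i} = Set.univ := by
          ext x
          simp
        rw [h3] at h2
        rw [h2]
        simp
      unfold dm
      refine (ENNReal.sum_lt_top.mpr fun i _ => ?_).ne
      exact lt_of_le_of_lt (measure_mono (Set.subset_univ _)) (lt_top_iff_ne_top.mpr h1)
    obtain ⟨a, N, h1, h2⟩ := hV n m (hn.symm.trans (hAB.trans hm)) (hn ▸ hfin)
    have hden := hD G hG
    have e1 : ∀ i, Nonempty (↥(Gc G (n i)) ≃ₜ Σ j : ℕ, Fin (a i j) × ↥(Gc G (N i j))) :=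
      fun i => hF G hden (n i) (a i) (N i) (h1 i).1 (h1 i).2
    have e2 : ∀ j, Nonempty (↥(Gc G (m j)) ≃ₜ Σ i : ℕ, Fin (a i j) × ↥(Gc G (N i j))) :=
      fun j => hF G hden (m j) (fun i => a i j) (fun i => N i j) (h2 j).1 (h2 j).2
    exact ⟨en.trans ((sgCongr fun i => (e1 i).some).trans
      ((sgSwap fun i j => Fin (a i j) × ↥(Gc G (N i j))).trans
        ((sgCongr fun j => (e2 j).some).symm.trans em.symm)))⟩

end Pool.Agent.LSG.H41
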