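import Pool.Agent.LSG.StmtsA

/-!
# Row TRL of squad LSG: cylinders of `G`
-/

set_option autoImplicit false

open MeasureTheory Set Topology

namespace Pool.Agent.LSG.H41

open Pool.Agent.LSG

/-- partition into open sets -/
noncomputable def partHomeo {X ι : Type} [TopologicalSpace X] (f : X → ι)
    (h : ∀ i, IsOpen {x | f x = i}) : (Σ i, {x // f x = i}) ≃ₜ X :=
  (Equiv.sigmaFiberEquiv f).toHomeomorphOfContinuousOpen
    (continuous_sigma fun _ => continuous_subtype_val)
    (isOpenMap_sigma.mpr fun i => (h i).isOpenMap_subtype_val)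

/-- partition into two open sets -/
noncomputable def partHomeo2 {X : Type} [TopologicalSpace X] (p : X → Prop)
    (h : IsClopen {x | p x}) : ({x // p x} ⊕ {x // ¬ p x}) ≃ₜ X := by
  classical
  exact (Equiv.sumCompl p).toHomeomorphOfContinuousOpen
    (continuous_sum_dom.mpr ⟨continuous_subtype_val, continuous_subtype_val⟩)
    (isOpenMap_sum.mpr ⟨h.isOpen.isOpenMap_subtype_val, h.compl.isOpen.isOpenMap_subtype_val⟩)

/-- homeomorphic fibres -/
def sigCongr {ι : Type} {X Y : ι → Type} [∀ i, TopologicalSpace (X i)]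
    [∀ i, TopologicalSpace (Y i)] (h : ∀ i, X i ≃ₜ Y i) : (Σ i, X i) ≃ₜ Σ i, Y i where
  toEquiv := Equiv.sigmaCongrRight fun i => (h i).toEquiv
  continuous_toFun := continuous_sigma fun i => continuous_sigmaMk.comp (h i).continuous
  continuous_invFun := continuous_sigma fun i => continuous_sigmaMk.comp (h i).symm.continuous

/-- equivalences of discrete spaces -/
def discHomeo {X Y : Type} [TopologicalSpace X] [TopologicalSpace Y] [DiscreteTopology X]
    [DiscreteTopology Y] (e : X ≃ Y) : X ≃ₜ Y where
  toEquiv := e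
  continuous_toFun := continuous_of_discreteTopology
  continuous_invFun := continuous_of_discreteTopology

/-- nested subtypes -/
def nest {X : Type} [TopologicalSpace X] {S : Set X} (q : S → Prop) (T : Set X)
    (h1 : ∀ x : S, q x → (x : X) ∈ T) (h2 : ∀ x ∈ T, ∃ hx : x ∈ S, q ⟨x, hx⟩) :
    {x : S // q x} ≃ₜ ↥T where
  toFun := fun x => ⟨x.1.1, h1 x.1 x.2⟩
  invFun := fun x => ⟨⟨x.1, (h2 x.1 x.2).fst⟩, (h2 x.1 x.2).snd⟩
  left_inv := fun _ => rfl
  right_inv := fun _ => rfl
  continuous_toFun := Continuous.subtype_mk (f := fun x : {x : S // q x} => x.1.1)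
    (continuous_subtype_val.comp continuous_subtype_val) fun x => h1 x.1 x.2
  continuous_invFun := Continuous.subtype_mk
    (Continuous.subtype_mk continuous_subtype_val fun x : T => (h2 x.1 x.2).fst)
    fun x => (h2 x.1 x.2).snd

section

variable (G : AddSubgroup K)

/-- coordinates are continuous on `G` -/
theorem coord_cont (i : ℕ) : Continuous fun x : G => (x : K) i :=
  (continuous_apply i).comp continuous_subtype_val

theorem two_add (a : ZMod 2) : a + a = 0 := CharTwo.add_self_eq_zero a

/-- elements of `G` with prescribed first coordinates -/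
theorem exists_pre (hG : Dense (G : Set K)) (n : ℕ) (s : K) :
    ∃ g : G, ∀ i < n, (g : K) i = s i := by
  have ho : IsOpen {x : K | ∀ i < n, x i = s i} := by
    have : {x : K | ∀ i < n, x i = s i} = ⋂ i ∈ Set.Iio n, {x : K | x i = s i} := by
      ext x
      simp
    rw [this]
    refine (Set.finite_Iio n).isOpen_biInter fun i _ => ?_
    have hc : Continuous fun x : K => x i := continuous_apply i
    exact (isOpen_discrete ({s i} : Set (ZMod 2))).preimage hc
  obtain ⟨x, hx, hxG⟩ := hG.inter_open_nonempty _ ho ⟨s, fun _ _ => rfl⟩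
  exact ⟨⟨x, hxG⟩, hx⟩

noncomputable def cylHomeo (hG : Dense (G : Set K)) (n : ℕ) (s : K) :
    ↥{x : G | ∀ i < n, (x : K) i = s i} ≃ₜ ↥(Gc G n) :=
  (Homeomorph.addRight (exists_pre G hG n s).choose).subtype (by
    intro x
    have hg := (exists_pre G hG n s).choose_spec
    constructor
    · intro hx i hi
      show (x : K) i + ((exists_pre G hG n s).choose : K) i = 0
      rw [hx i hi, hg i hi, two_add]
    · intro hx i hi
      have h1 : (x : K) i + ((exists_pre G hG n s).choose : K) i = 0 := hx i hi
      rw [hg i hi] at h1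
      have h2 := two_add (s i)
      exact add_right_cancel (h1.trans h2.symm))

theorem clopen_coord (n : ℕ) (a : ZMod 2) (Z : Set G) : IsClopen {x : Z | ((x : G) : K) n = a} := by
  have hc : Continuous fun x : Z => ((x : G) : K) n := (coord_cont G n).comp continuous_subtype_val
  exact (isClopen_discrete {a}).preimage hc

theorem trl2 (hG : Dense (G : Set K)) (n : ℕ) :
    Nonempty (↥(Gc G n) ≃ₜ (↥(Gc G (n + 1)) ⊕ ↥(Gc G (n + 1)))) := by
  classical
  let s : K := fun i => if i = n then 1 else 0
  have h1 : {x : ↥(Gc G n) // ((x : G) : K) n = 0} ≃ₜ ↥(Gc G (n + 1)) := by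
    refine nest _ _ (fun x hx i hi => ?_) (fun x hx => ⟨fun i hi => hx i (by omega),
      hx n (by omega)⟩)
    rcases Nat.lt_succ_iff_lt_or_eq.mp hi with h | h
    · exact x.2 i h
    · rw [h]
      exact hx
  have h2 : {x : ↥(Gc G n) // ¬ ((x : G) : K) n = 0} ≃ₜ
      ↥{x : G | ∀ i < n + 1, (x : K) i = s i} := by
    refine nest _ _ (fun x hx i hi => ?_) (fun x hx => ⟨fun i hi => ?_, ?_⟩)
    · rcases Nat.lt_succ_iff_lt_or_eq.mp hi with h | h
      · have : s i = 0 := if_neg (by omega)
        rw [this]
        exact x.2 i h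
      · have : s i = 1 := if_pos h
        rw [this, h]
        revert hx
        generalize ((x : G) : K) n = z
        revert z
        decide
    · have h3 := hx i (by omega)
      have : s i = 0 := if_neg (by omega)
      rw [this] at h3
      exact h3
    · have h3 := hx n (by omega)
      have : s n = 1 := if_pos rfl
      rw [this] at h3
      show ¬ (x : K) n = 0
      rw [h3]
      decide
  exact ⟨(partHomeo2 (fun x : ↥(Gc G n) => ((x : G) : K) n = 0)
    (clopen_coord G n 0 (Gc G n))).symm.trans
    (h1.sumCongr (h2.trans (cylHomeo G hG (n + 1) s)))⟩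

theorem trl3 (hG : Dense (G : Set K)) (n M a : ℕ) :
    Nonempty ((Fin a × ↥(Gc G n)) ≃ₜ (Fin (2 ^ M * a) × ↥(Gc G (n + M)))) := by
  induction M with
  | zero =>
    refine ⟨(discHomeo (finCongr (by simp))).prodCongr (Homeomorph.refl _)⟩
  | succ M ih =>
    obtain ⟨h1⟩ := ih
    obtain ⟨h2⟩ := trl2 G hG (n + M)
    have h3 : (↥(Gc G (n + M + 1)) ⊕ ↥(Gc G (n + M + 1))) ≃ₜ (Fin 2 × ↥(Gc G (n + M + 1))) :=
      ((Homeomorph.punitProd _).symm.sumCongr (Homeomorph.punitProd _).symm).trans
        (Homeomorph.sumProdDistrib.symm.trans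
          ((discHomeo ((Fintype.equivFinOfCardEq (by simp)) :
            (PUnit.{1} ⊕ PUnit.{1}) ≃ Fin 2)).prodCongr (Homeomorph.refl _)))
    have h4 : (Fin (2 ^ M * a) × Fin 2) ≃ Fin (2 ^ (M + 1) * a) :=
      finProdFinEquiv.trans (finCongr (by rw [pow_succ]; ring))
    exact ⟨h1.trans (((Homeomorph.refl _).prodCongr (h2.trans h3)).trans
      ((Homeomorph.prodAssoc _ _ _).symm.trans ((discHomeo h4).prodCongr (Homeomorph.refl _))))⟩

theorem trl4 (hG : Dense (G : Set K)) (hne : G ≠ ⊤) (n : ℕ) :
    Nonempty (↥(Gc G n) ≃ₜ Σ i : ℕ, ↥(Gc G (n + i + 1))) := by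
  classical
  obtain ⟨p0, hp0⟩ : ∃ p0 : K, p0 ∉ G := by
    by_contra h
    push Not at h
    exact hne ((AddSubgroup.eq_top_iff' G).mpr h)
  obtain ⟨g, hg⟩ := exists_pre G hG n p0
  let p : K := p0 + g
  have hp : p ∉ G := fun h => hp0 ((AddSubgroup.add_mem_cancel_right G g.2).mp h)
  have hpn : ∀ i < n, p i = 0 := by
    intro i hi
    show p0 i + (g : K) i = 0
    rw [hg i hi, two_add]
  have hex : ∀ x : ↥(Gc G n), ∃ j, ((x : G) : K) j ≠ p j := by
    intro x
    by_contra h
    push Not at h
    have h1 : ((x : G) : K) = p := funext h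
    exact hp (h1 ▸ (x : G).2)
  let N : ↥(Gc G n) → ℕ := fun x => Nat.find (hex x)
  have hN : ∀ x, n ≤ N x := by
    intro x
    by_contra h
    have h1 := Nat.find_spec (hex x)
    exact h1 ((x.2 _ (not_le.mp h)).trans (hpn _ (not_le.mp h)).symm)
  let f : ↥(Gc G n) → ℕ := fun x => N x - n
  let s : ℕ → K := fun i j => if j = n + i then p j + 1 else p j
  have hs : ∀ (i : ℕ) (x : ↥(Gc G n)), f x = i ↔ ∀ j < n + i + 1, ((x : G) : K) j = s i j := by
    intro i x
    have hNx := hN x
    constructor
    · intro h j hj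
      have h1 : N x = n + i := by
        have : N x - n = i := h
        omega
      by_cases hj' : j = n + i
      · have h2 : s i j = p j + 1 := if_pos hj'
        rw [h2, hj']
        have h3 : ((x : G) : K) (N x) ≠ p (N x) := Nat.find_spec (hex x)
        rw [h1] at h3
        revert h3
        generalize ((x : G) : K) (n + i) = z
        generalize p (n + i) = w
        revert z w
        decide
      · have h2 : s i j = p j := if_neg hj'
        rw [h2]
        by_contra h3
        have h4 : N x ≤ j := Nat.find_min' (hex x) h3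
        omega
    · intro h
      have h1 : N x = n + i := by
        refine le_antisymm (Nat.find_min' (hex x) ?_) ?_
        · rw [h (n + i) (by omega)]
          have : s i (n + i) = p (n + i) + 1 := if_pos rfl
          rw [this]
          generalize p (n + i) = w
          revert w
          decide
        · by_contra hlt
          have h3 : ((x : G) : K) (N x) ≠ p (N x) := Nat.find_spec (hex x)
          apply h3
          rw [h (N x) (by omega)]
          exact if_neg (by omega)
      show N x - n = i
      omega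
  have hopen : ∀ i, IsOpen {x | f x = i} := by
    intro i
    have : {x : ↥(Gc G n) | f x = i} =
        ⋂ j ∈ Set.Iio (n + i + 1), {x : ↥(Gc G n) | ((x : G) : K) j = s i j} := by
      ext x
      simp only [Set.mem_iInter, Set.mem_Iio]
      exact hs i x
    rw [this]
    exact (Set.finite_Iio _).isOpen_biInter fun j _ => (clopen_coord G j (s i j) (Gc G n)).isOpen
  have hfib : ∀ i, {x : ↥(Gc G n) // f x = i} ≃ₜ
      ↥{x : G | ∀ j < n + i + 1, (x : K) j = s i j} := by
    intro i
    have hmem : ∀ x : G, (∀ j < n + i + 1, (x : K) j = s i j) → x ∈ Gc G n := by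
      intro x hx j hj
      rw [hx j (by omega)]
      have : s i j = p j := if_neg (by omega)
      rw [this]
      exact hpn j hj
    exact nest _ _ (fun x hx => (hs i x).mp hx)
      (fun x hx => ⟨hmem x hx, (hs i ⟨x, hmem x hx⟩).mpr hx⟩)
  exact ⟨(partHomeo f hopen).symm.trans
    (sigCongr fun i => (hfib i).trans (cylHomeo G hG (n + i + 1) (s i)))⟩

end

theorem trl : TrlStmt := by
  intro G hG
  exact ⟨fun n s => ⟨cylHomeo G hG n s⟩, trl2 G hG, fun n M a => trl3 G hG n M a, trl4 G hG⟩

end Pool.Agent.LSG.H41
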